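import Mathlib
import Pool.Agent.CCL.Main
import Pool.Agent.CCL.Chain

namespace Pool.Agent.Results.MP_bc85be_nt.PolylogLength

open Pool.Agent.CCL

theorem result (A ε : ℝ) (hA : 1 < A) (hε : 0 < ε) : ∃ X0 : ℕ, ∀ x : ℕ, X0 ≤ x →
    (Set.ncard {p : ℕ | p ≤ x ∧ p.Prime ∧
      ∃ i L : ℕ, (i = 1 ∨ i = 2) ∧ HasLength i p L ∧ (Real.log p) ^ A ≤ L} : ℝ) ≤
      (x : ℝ) ^ (3 / 4 + 1 / (4 * A) + ε) := by
  classical
  obtain ⟨X0, hX0⟩ := long_chains A (ε / 2) hA (by linarith)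
  have h0 : ∀ᶠ x : ℕ in Filter.atTop, (2 : ℝ) ≤ (x : ℝ) ^ (ε / 2) :=
    ((tendsto_rpow_atTop (by linarith : (0 : ℝ) < ε / 2)).comp
      (tendsto_natCast_atTop_atTop (R := ℝ))).eventually_ge_atTop 2
  obtain ⟨X1, hX1⟩ := Filter.eventually_atTop.1 h0
  refine ⟨max X0 (max X1 1), fun x hx => ?_⟩
  have hx0 : X0 ≤ x := le_trans (le_max_left _ _) hx
  have hx1 : X1 ≤ x := le_trans (le_trans (le_max_left _ _) (le_max_right _ _)) hx
  have hx2 : 1 ≤ x := le_trans (le_trans (le_max_right _ _) (le_max_right _ _)) hx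
  have hxpos : (0 : ℝ) < x := by exact_mod_cast hx2
  obtain ⟨S, hS⟩ : ∃ S : ℕ → Finset ℕ, ∀ i, S i = (Finset.range (x + 1)).filter
    (fun p => p.Prime ∧ ∃ L : ℕ, HasLength i p L ∧ (Real.log p) ^ A ≤ L) := ⟨_, fun _ => rfl⟩
  have hsub : {p : ℕ | p ≤ x ∧ p.Prime ∧
      ∃ i L : ℕ, (i = 1 ∨ i = 2) ∧ HasLength i p L ∧ (Real.log p) ^ A ≤ L} ⊆
      ((S 1 ∪ S 2 : Finset ℕ) : Set ℕ) := by
    rintro p ⟨hpx, hpp, i, L, hi, hL, hle⟩
    rw [Finset.mem_coe, Finset.mem_union, hS, hS, Finset.mem_filter, Finset.mem_filter,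
      Finset.mem_range]
    rcases hi with rfl | rfl
    · exact Or.inl ⟨by omega, hpp, L, hL, hle⟩
    · exact Or.inr ⟨by omega, hpp, L, hL, hle⟩
  have h1 := Set.ncard_le_ncard hsub (Finset.finite_toSet _)
  rw [Set.ncard_coe_finset] at h1
  have h2 : ∀ i, (i = 1 ∨ i = 2) → ((S i).card : ℝ) ≤
      (x : ℝ) ^ (3 / 4 + 1 / (4 * A) + ε / 2) := by
    intro i hi
    refine hX0 x hx0 (if i = 1 then 1 else -1) ?_ _ ?_
    · by_cases h : i = 1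
      · left; rw [if_pos h]
      · right; rw [if_neg h]
    · intro p hp
      rw [hS, Finset.mem_filter, Finset.mem_range] at hp
      obtain ⟨hpx, hpp, L, hL, hle⟩ := hp
      refine ⟨by omega, fun n hn => ?_⟩
      have hnL : n < L := by
        have : (n : ℝ) < L := lt_of_lt_of_le hn hle
        exact_mod_cast this
      exact prime_of_hasLength i p L hi hpp hL _ rfl n hnL
  have h3 := h2 1 (Or.inl rfl)
  have h4 := h2 2 (Or.inr rfl)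
  have h5 : ((S 1 ∪ S 2).card : ℝ) ≤ (S 1).card + (S 2).card := by
    exact_mod_cast Finset.card_union_le _ _
  have h6 : (Set.ncard {p : ℕ | p ≤ x ∧ p.Prime ∧
      ∃ i L : ℕ, (i = 1 ∨ i = 2) ∧ HasLength i p L ∧ (Real.log p) ^ A ≤ L} : ℝ) ≤
      ((S 1 ∪ S 2).card : ℝ) := by exact_mod_cast h1
  have h7 : (x : ℝ) ^ (3 / 4 + 1 / (4 * A) + ε) =
      (x : ℝ) ^ (3 / 4 + 1 / (4 * A) + ε / 2) * (x : ℝ) ^ (ε / 2) := by
    rw [← Real.rpow_add hxpos]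
    congr 1
    ring
  rw [h7]
  have h8 := hX1 x hx1
  have h9 : 0 < (x : ℝ) ^ (3 / 4 + 1 / (4 * A) + ε / 2) := by positivity
  nlinarith

end Pool.Agent.Results.MP_bc85be_nt.PolylogLength
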