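import Mathlib
import Pool.Agent.RSL.TwoF
import Pool.Agent.RSC.Exist

/-!
Cunningham chains of both kinds in the random sieve model of the primes (Banks, Ford, Tao): almost surely, for
every `ε > 0`, all chains starting at a large `p` have length at most `(1 + ε) log p / log log p`, less than
`log_2 (p + 1)`, and this is best possible.
-/

namespace Pool.Agent.Results.MP_bc85be_nt.RandomModel

open MeasureTheory ProbabilityTheory Filter

/-- `∏_{q ≤ y} (1 - 1/q)`, the product over the primes `q ≤ y`. -/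
noncomputable def theta (y : ℕ) : ℝ :=
  ∏ q ∈ (Finset.range (y + 1)).filter Nat.Prime, (1 - 1 / (q : ℝ))

/-- The set which is left by the sieve with the residue classes `a p`: the odd `n` such that
`n % p ≠ a p` for every odd prime `p` with `theta p ≥ 1 / log n` (written `1 ≤ log n * theta p`). -/
def Sieved (a : ℕ → ℕ) : Set ℕ :=
  {n | n % 2 = 1 ∧ ∀ p : ℕ, p.Prime → p ≠ 2 → 1 ≤ Real.log n * theta p → n % p ≠ a p}

/-- For every prime `p` the random variable `a p` is uniformly distributed on `{0, ..., p - 1}`, and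
these random variables are independent. -/
structure UniformClasses {Ω : Type*} [MeasurableSpace Ω] (μ : Measure Ω) (a : ℕ → Ω → ℕ) :
    Prop where
  meas : ∀ p, p.Prime → Measurable (a p)
  indep : iIndepFun (fun p : Nat.Primes => a p) μ
  unif : ∀ p, p.Prime → ∀ j < p, μ.real {ω | a p ω = j} = 1 / (p : ℝ)

/-- The term `u_n` of the sequence of kind `i` (`1` or `2`) which starts at `p`. -/
def term (i p n : ℕ) : ℕ := if i = 1 then 2 ^ n * (p + 1) - 1 else 2 ^ n * (p - 1) + 1

/-- The chain of kind `i` in the set `R` which starts at `p` has length `L`: `u_0, ..., u_(L-1)` lie in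
`R`, and `u_L` does not. -/
def HasLength (R : Set ℕ) (i p L : ℕ) : Prop := (∀ n < L, term i p n ∈ R) ∧ term i p L ∉ R

/-- Such random variables exist (this is not part of `result`, it only shows that `result` is not
vacuous). -/
theorem exists_classes : ∃ (Ω : Type) (_ : MeasurableSpace Ω) (μ : Measure Ω) (a : ℕ → Ω → ℕ),
    IsProbabilityMeasure μ ∧ UniformClasses μ a := by
  obtain ⟨Ω, m, μ, a, h1, h2⟩ := Pool.Agent.RSC.exists_unif
  exact ⟨Ω, m, μ, a, h1, h2.meas, h2.indep, h2.unif⟩

theorem result {Ω : Type*} [MeasurableSpace Ω] (μ : Measure Ω) [IsProbabilityMeasure μ]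
    (a : ℕ → Ω → ℕ) (ha : UniformClasses μ a) (i : ℕ) (hi : i = 1 ∨ i = 2) :
    ∀ᵐ ω ∂μ, ∀ ε : ℝ, 0 < ε → ε < 1 →
      (∀ᶠ p : ℕ in atTop, ∀ L : ℕ, HasLength (Sieved fun q => a q ω) i p L →
        (L : ℝ) ≤ (1 + ε) * (Real.log p / Real.log (Real.log p)) ∧
          (L : ℝ) < Real.logb 2 ((p : ℝ) + 1)) ∧
      (∀ᶠ x : ℕ in atTop, ∃ p L : ℕ, 2 ≤ p ∧ p ≤ x ∧
        HasLength (Sieved fun q => a q ω) i p L ∧
          (1 - ε) * (Real.log x / Real.log (Real.log x)) ≤ L) := by
  have hu : Pool.Agent.RSC.Unif μ a := ⟨ha.meas, ha.indep, ha.unif⟩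
  -- the rational values `1/(m+2)` of `ε` suffice
  have key : ∀ m : ℕ, ∀ᵐ ω ∂μ,
      (∀ᶠ p : ℕ in atTop, ∀ L : ℕ, (∀ n < L, term i p n ∈ Sieved fun q => a q ω) →
        (L : ℝ) ≤ (1 + 1 / ((m : ℝ) + 2)) * (Real.log p / Real.log (Real.log p))) ∧
      (∀ᶠ x : ℕ in atTop, ∃ p L : ℕ, 2 ≤ p ∧ p ≤ x ∧
        (1 - 1 / ((m : ℝ) + 2)) * (Real.log x / Real.log (Real.log x)) ≤ L ∧
        (∀ n < L, term i p n ∈ Sieved fun q => a q ω) ∧
          term i p L ∉ Sieved fun q => a q ω) := by
    intro m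
    have hm : (0 : ℝ) ≤ m := Nat.cast_nonneg m
    have hm1 : 1 / ((m : ℝ) + 2) < 1 := by
      rw [div_lt_one (by positivity)]
      linarith
    rcases hi with rfl | rfl
    · exact Pool.Agent.RSL.kind_one hu (by positivity) hm1
    · exact Pool.Agent.RSL.kind_two hu (by positivity) hm1
  have hpos : ∀ᶠ x : ℕ in atTop, 0 ≤ Real.log x / Real.log (Real.log x) := by
    filter_upwards [eventually_ge_atTop 3] with x hx
    have hx3 : (3 : ℝ) ≤ x := by exact_mod_cast hx
    have he : Real.exp 1 < 3 := lt_trans Real.exp_one_lt_d9 (by norm_num)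
    have hl : 1 ≤ Real.log x := by
      rw [Real.le_log_iff_exp_le (by linarith)]
      linarith
    exact div_nonneg (by linarith) (Real.log_nonneg hl)
  have hll : ∀ᶠ x : ℕ in atTop, (2 : ℝ) ≤ Real.log (Real.log x) :=
    Pool.Agent.RSL.loglog_tendsto.eventually_ge_atTop _
  have hl1 : ∀ᶠ x : ℕ in atTop, (1 : ℝ) ≤ Real.log x :=
    Pool.Agent.RSL.log_tendsto.eventually_ge_atTop _
  filter_upwards [ae_all_iff.2 key] with ω hω ε h0 h1
  obtain ⟨m, hm⟩ := exists_nat_one_div_lt h0
  have hm0 : (0 : ℝ) ≤ m := Nat.cast_nonneg m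
  have hm2 : 1 / ((m : ℝ) + 2) ≤ ε := by
    have h2 : 1 / ((m : ℝ) + 2) ≤ 1 / ((m : ℝ) + 1) :=
      one_div_le_one_div_of_le (by positivity) (by linarith)
    linarith
  constructor
  · filter_upwards [(hω m).1, hpos, hll, hl1] with p hp hp0 hp2 hp3 L hL
    have hle := (hp L hL.1).trans
      (mul_le_mul_of_nonneg_right (show 1 + 1 / ((m : ℝ) + 2) ≤ 1 + ε by linarith) hp0)
    refine ⟨hle, ?_⟩
    have hlp : 0 < Real.log p := by linarith
    have h3 : (1 + ε) * (Real.log p / Real.log (Real.log p)) < 2 * (Real.log p / 2) := by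
      have h4 : Real.log p / Real.log (Real.log p) ≤ Real.log p / 2 :=
        div_le_div_of_nonneg_left hlp.le (by norm_num) hp2
      have h5 : 0 < Real.log p / 2 := by positivity
      nlinarith
    have h6 : Real.log p ≤ Real.logb 2 ((p : ℝ) + 1) := by
      have hp1 : (0 : ℝ) < p := by
        by_contra hc
        push Not at hc
        have : (p : ℝ) = 0 := le_antisymm hc (Nat.cast_nonneg _)
        rw [this, Real.log_zero] at hlp
        exact lt_irrefl _ hlp
      unfold Real.logb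
      have h7 : Real.log p ≤ Real.log ((p : ℝ) + 1) := Real.log_le_log hp1 (by linarith)
      have h8 : (0 : ℝ) < Real.log 2 := Real.log_pos (by norm_num)
      have h9 : Real.log 2 < 1 := by
        have := Real.log_two_lt_d9
        linarith
      rw [le_div_iff₀ h8]
      nlinarith
    linarith
  · filter_upwards [(hω m).2, hpos] with x hx hx0
    obtain ⟨p, L, hp2, hpx, hL, hmem, hnot⟩ := hx
    refine ⟨p, L, hp2, hpx, ⟨hmem, hnot⟩, le_trans ?_ hL⟩
    exact mul_le_mul_of_nonneg_right (by linarith) hx0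

end Pool.Agent.Results.MP_bc85be_nt.RandomModel
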