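import Mathlib

/-!
Cunningham chains which start at a prime `p` such that `p + 1` (first kind) or `p - 1` (second kind) is a sum or a
difference of two powers of `2`, for instance at a Mersenne prime, or has a small odd part: their length is less than
`log_2 (p + 1)`.
-/

namespace Pool.Agent.Results.MP_bc85be_nt.TwoPowers

/-- The term `u_n` of the sequence of kind `i` (`1` or `2`) which starts at `p`. -/
def term (i p n : ℕ) : ℕ := if i = 1 then 2 ^ n * (p + 1) - 1 else 2 ^ n * (p - 1) + 1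

/-- The chain of kind `i` which starts at `p` has length `L`: `u_0, ..., u_(L-1)` are prime, and `u_L` is
not. -/
def HasLength (i p L : ℕ) : Prop := (∀ n < L, (term i p n).Prime) ∧ ¬ (term i p L).Prime

/-- `p + 1` for the first kind, `p - 1` for the second kind. -/
def shift (i p : ℕ) : ℕ := if i = 1 then p + 1 else p - 1

lemma le_of_dvd' {i p L : ℕ} (hL : HasLength i p L) {j q : ℕ} (hq : 1 < q) (hd : q ∣ term i p j)
    (hlt : q < term i p j) : L ≤ j := by
  by_contra h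
  have h1 := hL.1 j (by omega)
  rcases (Nat.dvd_prime h1).1 hd with h | h <;> omega

lemma le_term (i p j : ℕ) : p ≤ term i p j := by
  have h1 : 0 < 2 ^ j := by positivity
  unfold term
  split_ifs
  · have : p + 1 ≤ 2 ^ j * (p + 1) := Nat.le_mul_of_pos_left _ h1
    omega
  · have : p - 1 ≤ 2 ^ j * (p - 1) := Nat.le_mul_of_pos_left _ h1
    omega

/-- `2` is a primitive root modulo `3`, `5` and `11`. -/
lemma prim_aux : ∀ q, (q = 3 ∨ q = 5 ∨ q = 11) → ∀ r < q, r ≠ 0 →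
    (∃ j < q - 1, (2 ^ j * r) % q = 1) ∧ (∃ j < q - 1, (2 ^ j * r + 1) % q = 0) := by
  rintro q (rfl | rfl | rfl) <;> decide

lemma exists_dvd {q i p : ℕ} (hq : q = 3 ∨ q = 5 ∨ q = 11) (hi : i = 1 ∨ i = 2)
    (h : shift i p % q ≠ 0) : ∃ j < q - 1, q ∣ term i p j := by
  have hq0 : 0 < q := by omega
  have h1 := prim_aux q hq (shift i p % q) (Nat.mod_lt _ hq0) h
  rcases hi with rfl | rfl
  · obtain ⟨j, hj, h2⟩ := h1.1
    refine ⟨j, hj, ?_⟩
    have h3 : (2 ^ j * (p + 1)) % q = 1 := by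
      rw [Nat.mul_mod_mod] at h2
      simpa [shift] using h2
    have h4 := Nat.div_add_mod (2 ^ j * (p + 1)) q
    refine ⟨2 ^ j * (p + 1) / q, ?_⟩
    simp only [term, if_true]
    omega
  · obtain ⟨j, hj, h2⟩ := h1.2
    refine ⟨j, hj, ?_⟩
    rw [Nat.dvd_iff_mod_eq_zero, ← h2]
    simp only [term, shift]
    rw [if_neg (by norm_num), if_neg (by norm_num), Nat.add_mod, Nat.mul_mod]
    conv_rhs => rw [Nat.add_mod, Nat.mul_mod]
    simp

/-- a test by division -/
def chk (i p : ℕ) : Bool :=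
  [2, 3, 5, 7, 11, 13, 17, 19, 23, 29].any (fun q => decide (p % q = 0 ∧ q < p)) ||
    (List.range 9).any fun j => decide (2 ^ j < p + 1) &&
      [2, 3, 5, 7, 11, 13, 17, 19, 23, 29].any fun q =>
        decide (term i p j % q = 0 ∧ q < term i p j)

lemma chk_all : ((List.range 512).all fun p => decide (p ≤ 5) || (chk 1 p && chk 2 p)) = true := by
  decide +kernel

lemma small_aux (Q : List ℕ) (hQ : Q = [2, 3, 5, 7, 11, 13, 17, 19, 23, 29]) (p : ℕ)
    (hp : p < 512) (h5 : 5 < p) (i : ℕ) (hi : i = 1 ∨ i = 2) : (∃ q ∈ Q, p % q = 0 ∧ q < p) ∨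
      ∃ j < 9, 2 ^ j < p + 1 ∧ ∃ q ∈ Q, (term i p j) % q = 0 ∧ q < term i p j := by
  subst hQ
  have h1 := List.all_eq_true.1 chk_all p (List.mem_range.2 hp)
  rw [Bool.or_eq_true, decide_eq_true_eq, Bool.and_eq_true] at h1
  have h2 : chk i p = true := by
    rcases hi with rfl | rfl
    · exact (h1.resolve_left (by omega)).1
    · exact (h1.resolve_left (by omega)).2
  unfold chk at h2
  rw [Bool.or_eq_true, List.any_eq_true, List.any_eq_true] at h2
  rcases h2 with ⟨q, hq, h3⟩ | ⟨j, hj, h3⟩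
  · exact Or.inl ⟨q, hq, of_decide_eq_true h3⟩
  · rw [Bool.and_eq_true, List.any_eq_true] at h3
    obtain ⟨h4, q, hq, h5⟩ := h3
    exact Or.inr ⟨j, List.mem_range.1 hj, of_decide_eq_true h4, q, hq, of_decide_eq_true h5⟩

/-- the small primes -/
lemma small {i p L : ℕ} (hi : i = 1 ∨ i = 2) (hp : p.Prime) (h5 : 5 < p) (hs : p < 512)
    (hL : HasLength i p L) : 2 ^ L < p + 1 := by
  rcases small_aux _ rfl p hs h5 i hi with ⟨q, hq, h1, h2⟩ | ⟨j, hj, h1, q, hq, h2, h3⟩
  · exfalso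
    have hq1 : 1 < q := by
      simp only [List.mem_cons, List.not_mem_nil, or_false] at hq
      omega
    rcases (Nat.dvd_prime hp).1 (Nat.dvd_of_mod_eq_zero h1) with h | h <;> omega
  · have hq1 : 1 < q := by
      simp only [List.mem_cons, List.not_mem_nil, or_false] at hq
      omega
    have h4 := le_of_dvd' hL hq1 (Nat.dvd_of_mod_eq_zero h2) h3
    exact lt_of_le_of_lt (Nat.pow_le_pow_right (by norm_num) h4) h1

/-- a prime `q = 3, 5, 11` which does not divide `p + 1`, `p - 1` -/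
lemma of_not_dvd {q i p L : ℕ} (hq : q = 3 ∨ q = 5 ∨ q = 11) (hi : i = 1 ∨ i = 2) (hp : p.Prime)
    (h5 : 5 < p) (h : shift i p % q ≠ 0) (hL : HasLength i p L) : 2 ^ L < p + 1 := by
  by_cases hs : p < 512
  · exact small hi hp h5 hs hL
  · obtain ⟨j, hj, h1⟩ := exists_dvd hq hi h
    have h2 := le_of_dvd' hL (by omega) h1 (by have := le_term i p j; omega)
    have h3 : (2 : ℕ) ^ L ≤ 2 ^ 9 := Nat.pow_le_pow_right (by norm_num) (by omega)
    norm_num at h3
    omega

lemma sq11 (k : ℕ) : (2 ^ 2 ^ k) % 11 = 2 ∨ (2 ^ 2 ^ k) % 11 = 4 ∨ (2 ^ 2 ^ k) % 11 = 5 ∨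
    (2 ^ 2 ^ k) % 11 = 3 ∨ (2 ^ 2 ^ k) % 11 = 9 := by
  induction k with
  | zero => left; norm_num
  | succ k ih =>
    have h : (2 ^ 2 ^ (k + 1)) % 11 = ((2 ^ 2 ^ k) % 11 * ((2 ^ 2 ^ k) % 11)) % 11 := by
      rw [← Nat.mul_mod, ← pow_add, pow_succ]
      congr 2
      ring
    rcases ih with h1 | h1 | h1 | h1 | h1 <;> rw [h, h1] <;> norm_num

lemma exists_shift (N a t : ℕ) (ht : t < N) : ∃ j < N, (j + a) % N = t := by
  refine ⟨(t + (N - 1) * a) % N, Nat.mod_lt _ (by omega), ?_⟩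
  rw [Nat.mod_add_mod]
  have : t + (N - 1) * a + a = t + N * a := by
    obtain ⟨M, rfl⟩ : ∃ M, N = M + 1 := ⟨N - 1, by omega⟩
    simp only [Nat.add_sub_cancel]
    ring
  rw [this, Nat.add_mul_mod_self_left]
  exact Nat.mod_eq_of_lt ht

/-- the Fermat number `F_k` divides one of `2^(k+1)` consecutive terms -/
lemma fermat {i p k c y : ℕ} (hi : i = 1 ∨ i = 2) (hp : 0 < p) (hc : Odd c)
    (hW : shift i p + 2 ^ y = 2 ^ y * 2 ^ (2 ^ k * c)) :
    ∃ j < 2 ^ (k + 1), 2 ^ 2 ^ k + 1 ∣ term i p j := by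
  obtain ⟨F, hF⟩ : ∃ F, F = 2 ^ 2 ^ k + 1 := ⟨_, rfl⟩
  rw [← hF]
  have h1 : (2 : ZMod F) ^ 2 ^ k = -1 := by
    have : ((2 ^ 2 ^ k + 1 : ℕ) : ZMod F) = 0 := by rw [← hF]; exact ZMod.natCast_self F
    push_cast at this
    exact eq_neg_of_add_eq_zero_left this
  have h2 : (2 : ZMod F) ^ 2 ^ (k + 1) = 1 := by
    rw [pow_succ, pow_mul, h1]; norm_num
  have h3 : (shift i p : ZMod F) = -2 ^ (y + 1) := by
    have h4 := congrArg (Nat.cast : ℕ → ZMod F) hW
    push_cast at h4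
    rw [pow_mul, h1, hc.neg_one_pow] at h4
    rw [eq_sub_of_add_eq h4, pow_succ]
    ring
  have h4 : ∀ t, t < 2 ^ (k + 1) → ∃ j < 2 ^ (k + 1),
      (2 : ZMod F) ^ j * (shift i p : ZMod F) = - 2 ^ t := by
    intro t ht
    obtain ⟨j, hj, h5⟩ := exists_shift (2 ^ (k + 1)) (y + 1) t ht
    refine ⟨j, hj, ?_⟩
    rw [h3, mul_neg, ← pow_add, ← Nat.div_add_mod (j + (y + 1)) (2 ^ (k + 1)), h5, pow_add, pow_mul,
      h2, one_pow, one_mul]
  rcases hi with rfl | rfl
  · obtain ⟨j, hj, h5⟩ := h4 (2 ^ k) (Nat.pow_lt_pow_right (by norm_num) (by omega))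
    refine ⟨j, hj, ?_⟩
    rw [← ZMod.natCast_eq_zero_iff]
    have h6 : term 1 p j + 1 = 2 ^ j * shift 1 p := by
      have : 0 < 2 ^ j * (p + 1) := by positivity
      simp only [term, shift, if_true]
      omega
    have h7 := congrArg (Nat.cast : ℕ → ZMod F) h6
    push_cast at h7
    rw [h5, h1, neg_neg] at h7
    exact add_eq_right.1 h7
  · obtain ⟨j, hj, h5⟩ := h4 0 (by positivity)
    refine ⟨j, hj, ?_⟩
    rw [← ZMod.natCast_eq_zero_iff]
    have h6 : term 2 p j = 2 ^ j * shift 2 p + 1 := by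
      simp [term, shift]
    rw [h6]
    push_cast
    rw [h5]
    simp

lemma diff {i p L x y : ℕ} (hi : i = 1 ∨ i = 2) (hp : p.Prime) (h5 : 5 < p)
    (hW : shift i p + 2 ^ y = 2 ^ x) (hL : HasLength i p L) : 2 ^ L < p + 1 := by
  have hpos : 0 < shift i p := by
    unfold shift; split_ifs <;> omega
  have hxy : y < x := by
    by_contra h
    have : 2 ^ x ≤ 2 ^ y := Nat.pow_le_pow_right (by norm_num) (by omega)
    omega
  obtain ⟨b, hb, rfl⟩ : ∃ b, 0 < b ∧ x = y + b := ⟨x - y, by omega, by omega⟩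
  obtain ⟨k, c, hc, rfl⟩ : ∃ k c, Odd c ∧ b = 2 ^ k * c := by
    obtain ⟨k, c, h1, h2⟩ := Nat.exists_eq_two_pow_mul_odd hb.ne'
    exact ⟨k, c, h1, h2⟩
  rw [pow_add] at hW
  by_cases hc1 : c = 1
  · subst hc1
    rw [mul_one] at hW
    refine of_not_dvd (q := 11) (by omega) hi hp h5 ?_ hL
    intro h0
    have h1 : 11 ∣ shift i p := Nat.dvd_of_mod_eq_zero h0
    obtain ⟨z, hz⟩ : ∃ z, 2 ^ 2 ^ k = z + 1 := ⟨2 ^ 2 ^ k - 1, by
      have : 0 < 2 ^ 2 ^ k := by positivity
      omega⟩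
    have h2 : shift i p = 2 ^ y * z := by
      rw [hz] at hW
      have : 2 ^ y * (z + 1) = 2 ^ y * z + 2 ^ y := by ring
      omega
    rw [h2] at h1
    rcases (Nat.Prime.dvd_mul (by norm_num)).1 h1 with h3 | h3
    · have := (Nat.Prime.dvd_of_dvd_pow (by norm_num) h3)
      omega
    · have h4 := sq11 k
      rw [hz] at h4
      omega
  · have hc3 : 3 ≤ c := by
      obtain ⟨d, rfl⟩ := hc
      omega
    obtain ⟨j, hj, h1⟩ := fermat hi hp.pos hc hW
    have hk : 1 ≤ 2 ^ k := Nat.one_le_two_pow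
    have hy : 1 ≤ 2 ^ y := Nat.one_le_two_pow
    have h3 : 2 ^ 2 ^ k * (2 ^ 2 ^ k * 2 ^ 2 ^ k) ≤ 2 ^ (2 ^ k * c) := by
      rw [← pow_add, ← pow_add]
      refine Nat.pow_le_pow_right (by norm_num) ?_
      nlinarith
    obtain ⟨A, hA⟩ : ∃ A, A = 2 ^ 2 ^ k := ⟨_, rfl⟩
    have hA2 : 2 ≤ A := by
      rw [hA]
      calc 2 = 2 ^ 1 := by norm_num
        _ ≤ 2 ^ 2 ^ k := Nat.pow_le_pow_right (by norm_num) hk
    rw [← hA] at h3 h1
    have h4 : 2 ^ (2 ^ k * c) - 1 ≤ shift i p := by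
      obtain ⟨z, hz⟩ : ∃ z, 2 ^ (2 ^ k * c) = z + 1 := ⟨2 ^ (2 ^ k * c) - 1, by
        have : 0 < 2 ^ (2 ^ k * c) := by positivity
        omega⟩
      rw [hz] at hW ⊢
      have h6 : shift i p = 2 ^ y * z := by
        have : 2 ^ y * (z + 1) = 2 ^ y * z + 2 ^ y := by ring
        omega
      rw [h6]
      simp only [Nat.add_sub_cancel]
      exact Nat.le_mul_of_pos_left _ (by omega)
    have h5' : shift i p ≤ p + 1 := by
      unfold shift; split_ifs <;> omega
    have h6 : A * (A * A) ≤ p + 2 := by omega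
    have h7 : A + 1 < p := by nlinarith
    have h8 := le_of_dvd' hL (by omega) h1 (by have := le_term i p j; omega)
    have h9 : 2 ^ L * 2 ≤ A * A := by
      rw [hA, ← pow_add, ← pow_succ]
      refine Nat.pow_le_pow_right (by norm_num) ?_
      have : 2 ^ (k + 1) = 2 ^ k + 2 ^ k := by ring
      omega
    nlinarith

lemma two_pow_mod3 (b : ℕ) : (2 ^ (2 * b)) % 3 = 1 := by
  rw [pow_mul, Nat.pow_mod]; norm_num

lemma two_pow_mod5 (b : ℕ) : (2 ^ (2 * b + 1)) % 5 = 2 ∨ (2 ^ (2 * b + 1)) % 5 = 3 := by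
  induction b with
  | zero => left; norm_num
  | succ b ih =>
    have : 2 ^ (2 * (b + 1) + 1) = 2 ^ (2 * b + 1) * 4 := by
      rw [show 2 * (b + 1) + 1 = (2 * b + 1) + 2 by ring, pow_add]; norm_num
    omega

lemma sum_le {i p L x y : ℕ} (hi : i = 1 ∨ i = 2) (hp : p.Prime) (h5 : 5 < p) (hxy : y ≤ x)
    (hW : shift i p = 2 ^ x + 2 ^ y) (hL : HasLength i p L) : 2 ^ L < p + 1 := by
  obtain ⟨b, rfl⟩ : ∃ b, x = y + b := ⟨x - y, by omega⟩
  have h0 : shift i p = 2 ^ y * (2 ^ b + 1) := by rw [hW, pow_add]; ring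
  rcases Nat.even_or_odd' b with ⟨d, rfl | rfl⟩
  · refine of_not_dvd (q := 3) (by omega) hi hp h5 ?_ hL
    intro h
    have h1 : 3 ∣ shift i p := Nat.dvd_of_mod_eq_zero h
    rw [h0] at h1
    rcases (Nat.Prime.dvd_mul (by norm_num)).1 h1 with h3 | h3
    · have := (Nat.Prime.dvd_of_dvd_pow (by norm_num) h3)
      omega
    · have := two_pow_mod3 d
      omega
  · refine of_not_dvd (q := 5) (by omega) hi hp h5 ?_ hL
    intro h
    have h1 : 5 ∣ shift i p := Nat.dvd_of_mod_eq_zero h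
    rw [h0] at h1
    rcases (Nat.Prime.dvd_mul (by norm_num)).1 h1 with h3 | h3
    · have := (Nat.Prime.dvd_of_dvd_pow (by norm_num) h3)
      omega
    · have := two_pow_mod5 d
      omega

/-- `p + 1` or `p - 1` is `2 ^ n * w` with an odd number `w ≤ 2 * n + 1` -/
lemma small_odd {i p L n w : ℕ} (hi : i = 1 ∨ i = 2) (hp : p.Prime) (h5 : 5 < p)
    (hW : shift i p = 2 ^ n * w) (hodd : Odd w) (hw : w ≤ 2 * n + 1) (hL : HasLength i p L) :
    2 ^ L < p + 1 := by
  have hw0 : 0 < w := hodd.pos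
  have h15 : i = 1 → shift i p = p + 1 := fun h => by simp [shift, h]
  have h16 : i = 2 → shift i p = p - 1 := fun h => by simp [shift, h]
  have hn : 0 < n := by
    rcases Nat.eq_zero_or_pos n with h | h
    · subst h
      have hw1 : w = 1 := by omega
      rw [hw1] at hW
      norm_num at hW
      rcases hi with h | h
      · have := h15 h
        omega
      · have := h16 h
        omega
    · exact h
  by_cases h1 : i = 1 ∧ w = 1
  · obtain ⟨rfl, rfl⟩ := h1
    exact diff (x := n + 1) (y := n) hi hp h5 (by rw [hW]; ring) hL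
  obtain ⟨M, hM⟩ : ∃ M, M = if i = 1 then w - 1 else w + 1 := ⟨_, rfl⟩
  obtain ⟨d, hd⟩ := hodd
  have hM2 : 0 < M ∧ M ≤ w + 1 ∧ M % 2 = 0 := by
    rw [hM]; split_ifs with h <;> omega
  obtain ⟨v, Q, hQ, hMQ⟩ := Nat.exists_eq_two_pow_mul_odd hM2.1.ne'
  have hv : 0 < v := by
    rcases Nat.eq_zero_or_pos v with h | h
    · rw [h] at hMQ
      obtain ⟨e, he⟩ := hQ
      omega
    · exact h
  by_cases hQ1 : Q = 1
  · subst hQ1
    rw [mul_one] at hMQ
    rcases hi with rfl | rfl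
    · rw [if_pos rfl] at hM
      refine sum_le (x := v + n) (y := n) (Or.inl rfl) hp h5 (by omega) ?_ hL
      rw [hW, show w = 2 ^ v + 1 by omega]
      ring
    · rw [if_neg (by norm_num)] at hM
      refine diff (x := v + n) (y := n) (Or.inr rfl) hp h5 ?_ hL
      rw [hW, pow_add, ← hMQ, hM]
      ring
  have hQ3 : 3 ≤ Q := by
    obtain ⟨e, he⟩ := hQ
    omega
  have h2Q : 2 * Q ≤ w + 1 := by
    have h1 : 2 * Q ≤ 2 ^ v * Q := by
      refine Nat.mul_le_mul_right _ ?_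
      calc 2 = 2 ^ 1 := by norm_num
        _ ≤ 2 ^ v := Nat.pow_le_pow_right (by norm_num) hv
    omega
  have hcop : Nat.Coprime 2 Q := by
    rw [Nat.coprime_two_left]; exact hQ
  have h2 : (2 : ZMod Q) ^ Nat.totient Q = 1 := by
    have := (ZMod.natCast_eq_natCast_iff _ _ Q).2 (Nat.ModEq.pow_totient hcop)
    push_cast at this
    exact this
  have h3 : Nat.totient Q < Q := Nat.totient_lt Q (by omega)
  have h4 : 0 < Nat.totient Q := Nat.totient_pos.2 (by omega)
  obtain ⟨j, hj, h6⟩ := exists_shift (Nat.totient Q) n 0 h4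
  have h7 : (2 : ZMod Q) ^ (j + n) = 1 := by
    rw [pow_eq_pow_mod _ h2, h6, pow_zero]
  have h8 : (2 : ZMod Q) ^ j * (shift i p : ZMod Q) = w := by
    rw [hW]; push_cast
    rw [← mul_assoc, ← pow_add, h7, one_mul]
  have hM0 : (M : ZMod Q) = 0 := by
    rw [hMQ]; push_cast
    rw [ZMod.natCast_self, mul_zero]
  have h9 : Q ∣ term i p j := by
    rw [← ZMod.natCast_eq_zero_iff]
    rcases hi with rfl | rfl
    · have h6 : term 1 p j + 1 = 2 ^ j * shift 1 p := by
        have : 0 < 2 ^ j * (p + 1) := by positivity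
        simp only [term, shift, if_true]
        omega
      have h7 := congrArg (Nat.cast : ℕ → ZMod Q) h6
      push_cast at h7
      rw [h8] at h7
      have h10 : M + 1 = w := by
        rw [if_pos rfl] at hM; omega
      have h11 := congrArg (Nat.cast : ℕ → ZMod Q) h10
      push_cast at h11
      rw [hM0, zero_add] at h11
      rw [← h11] at h7
      exact add_eq_right.1 h7
    · have h6 : term 2 p j = 2 ^ j * shift 2 p + 1 := by
        simp [term, shift]
      rw [h6]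
      push_cast
      rw [h8]
      rw [if_neg (by norm_num)] at hM
      have h11 := congrArg (Nat.cast : ℕ → ZMod Q) hM
      push_cast at h11
      rw [hM0] at h11
      exact h11.symm
  have h5' : shift i p ≤ p + 1 := by
    unfold shift; split_ifs <;> omega
  have h12 : 2 ^ n ≤ p + 1 := by
    have : 2 ^ n ≤ 2 ^ n * w := Nat.le_mul_of_pos_right _ hw0
    omega
  have h13 : Q < p := by
    have h14 : 2 * w ≤ 2 ^ n * w := by
      refine Nat.mul_le_mul_right _ ?_
      calc 2 = 2 ^ 1 := by norm_num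
        _ ≤ 2 ^ n := Nat.pow_le_pow_right (by norm_num) hn
    omega
  have h14 := le_of_dvd' hL (by omega) h9 (by have := le_term i p j; omega)
  have h15 : L < n := by omega
  have h16 : 2 ^ L < 2 ^ n := Nat.pow_lt_pow_right (by norm_num) h15
  omega

/-- **Main result.** The inequality `|C_i[p]| < log_2 (p + 1)` for the primes `p > 5` such that `p + 1` (for the
first kind), `p - 1` (for the second kind) is `2 ^ x + 2 ^ y`, or `2 ^ x - 2 ^ y`, or `2 ^ n * w` with an odd number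
`w ≤ 2 * n + 1`. -/
theorem result (i p L : ℕ) (hi : i = 1 ∨ i = 2) (hp : p.Prime) (h5 : 5 < p)
    (hW : (∃ x y : ℕ, shift i p = 2 ^ x + 2 ^ y) ∨ (∃ x y : ℕ, shift i p + 2 ^ y = 2 ^ x) ∨
      ∃ n w : ℕ, shift i p = 2 ^ n * w ∧ Odd w ∧ w ≤ 2 * n + 1)
    (hL : HasLength i p L) :
    (L : ℝ) < Real.logb 2 ((p : ℝ) + 1) := by
  have key : 2 ^ L < p + 1 := by
    rcases hW with ⟨x, y, hW⟩ | ⟨x, y, hW⟩ | ⟨n, w, hW, ho, hw⟩
    · rcases le_total y x with h | h
      · exact sum_le hi hp h5 h hW hL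
      · exact sum_le hi hp h5 h (by rw [hW]; ring) hL
    · exact diff hi hp h5 hW hL
    · exact small_odd hi hp h5 hW ho hw hL
  rw [Real.lt_logb_iff_rpow_lt (by norm_num) (by positivity), Real.rpow_natCast]
  exact_mod_cast key

/-- The case of the Mersenne primes, second kind (this only shows what `result` says there). -/
theorem mersenne (p L n : ℕ) (hp : p.Prime) (h5 : 5 < p) (hn : p + 1 = 2 ^ n)
    (hL : HasLength 2 p L) : L < n := by
  have hs : shift 2 p = p - 1 := by simp [shift]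
  have h3 := result 2 p L (Or.inr rfl) hp h5 (Or.inr (Or.inl ⟨n, 1, by rw [hs]; omega⟩)) hL
  have h4 : ((p : ℝ) + 1) = 2 ^ n := by exact_mod_cast hn
  rw [h4, Real.logb_pow, Real.logb_self_eq_one (by norm_num), mul_one] at h3
  exact_mod_cast h3

end Pool.Agent.Results.MP_bc85be_nt.TwoPowers
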